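import Mathlib

/-! The certificate checker (definitions only). -/

namespace Pool.Agent.Lib.MP_b5d28a_nt

/-- Evaluate `n` before passing it on. -/
def force {α : Type} (n : ℕ) (f : ℕ → α) : α := Nat.casesOn n (f 0) (fun m => f (m + 1))

/-- The residue of `(-1)^j (s-j)^r` modulo `l`. -/
def coef (s l r j : ℕ) : ℕ :=
  Nat.mod (Nat.mul (Bool.rec (Nat.sub l 1) 1 (Nat.beq (Nat.mod j 2) 0)) (Nat.pow (Nat.sub s j) r)) l

/-- The coefficients packed as digits in base `b`. -/
def pack (s l r b m : ℕ) : ℕ → ℕ :=
  Nat.rec (fun _ => 0) (fun _ ih j => force j fun j =>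
    Nat.add (coef s l r j) (Nat.mul b (ih (Nat.succ j)))) m

/-- Newton forward differences: the lowest digit is never divisible by `l`. -/
def scan (l B mm x : ℕ) : ℕ → Bool :=
  Nat.rec (fun _ => true) (fun _ ih V => force V fun V =>
    Bool.rec (ih (Nat.add V (Nat.shiftRight V B))) false
      (Nat.beq (Nat.mod (Nat.land V mm) l) 0)) x

/-- Trial division. -/
def noDiv (l x : ℕ) : Bool :=
  Nat.rec true (fun d ih => Bool.rec (Bool.rec ih false (Nat.beq (Nat.mod l (Nat.succ d)) 0)) true
    (Nat.beq d 0)) x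

/-- Primality by trial division up to the square root. -/
def isPr (l : ℕ) : Bool := decide (2 ≤ l) && noDiv l (min (l - 1) (Nat.sqrt l))

/-- The polynomial has no root modulo `l` when the exponent is `r` modulo `l - 1`. -/
def rootless (s l r : ℕ) : Bool :=
  force (Nat.succ (Nat.log2 (Nat.mul s (Nat.pow l (Nat.succ s))))) fun B =>
    force (Nat.sub (Nat.pow 2 B) 1) fun mm => scan l B mm l (pack s l r (Nat.pow 2 B) s 0)

/-- Bit test. -/
def tb (m r : ℕ) : Bool := Nat.beq (Nat.mod (Nat.shiftRight m r) 2) 1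

/-- All residues `o + j` with `j` marked in the mask `m` are rootless. -/
def maskOK (s l x : ℕ) : ℕ → ℕ → Bool :=
  Nat.rec (fun _ m => Nat.beq m 0) (fun _ ih o m => force o fun o => force m fun m =>
    Bool.rec (Bool.rec false (ih (Nat.succ o) (Nat.div m 2))
      (Bool.rec (rootless s l o) true (Nat.beq (Nat.mod m 2) 0))) true (Nat.beq m 0)) x

/-- The `i`-th slot of a packed table. -/
def slot (tab i : ℕ) : ℕ := Nat.mod (Nat.shiftRight tab (Nat.mul i 512)) (Nat.pow 2 512)

/-- The slots `a ≤ i < a + x` hold a prime and a mask of rootless residues. -/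
def tabOK (s tab a : ℕ) : ℕ → Bool
  | 0 => true
  | x + 1 => force (slot tab (a + x)) (fun y => force (y % 1048576) fun l =>
      isPr l && decide (s < l) && maskOK s l 512 (y / 1048576 % 1048576) (y / 1099511627776)) &&
      tabOK s tab a x

/-- The `i`-th slot excludes the class `r` modulo `M`. -/
def hit (tab i r M : ℕ) : Bool :=
  force (slot tab i) fun y => force (Nat.sub (Nat.mod y 1048576) 1) fun l =>
    force (Nat.mod (Nat.div y 1048576) 1048576) fun o => force (Nat.mod r l) fun r' =>
      Bool.rec false (Bool.rec false (tb (Nat.div y 1099511627776) (Nat.sub r' o)) (Nat.ble o r'))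
        (Nat.beq (Nat.mod M l) 0)

/-- One of the slots `i, …, i + x - 1` excludes the exponent `e`. -/
def look (tab e x : ℕ) : ℕ → Bool :=
  Nat.rec (fun _ => false) (fun _ ih i => force i fun i =>
    Bool.rec (ih (Nat.succ i)) true (hit tab i e 0)) x

/-- Every exponent in `[a, a + x)` is excluded by the table. -/
def finOK (tab len x : ℕ) : ℕ → Bool :=
  Nat.rec (fun _ => true) (fun _ ih a => force a fun a =>
    Bool.rec false (ih (Nat.succ a)) (look tab a len 0)) x

/-- Modular power with the exponent `128 (128 a + b) + c`. -/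
def pw (p a b c m : ℕ) : ℕ :=
  Nat.mod (Nat.mul (Nat.mul (Nat.mod (Nat.pow (Nat.mod (Nat.pow (Nat.mod (Nat.pow p 128) m) 128) m)
    a) m) (Nat.mod (Nat.pow (Nat.mod (Nat.pow p 128) m) b) m)) (Nat.pow p c)) m

/-- The sum over `1 ≤ j ≤ x`, `q ∤ j`, of `(s-j)^(128 (128 a + b) + c) (D/j)`, up to multiples
of `m`. -/
def tsum (s q D a b c m x : ℕ) : ℕ :=
  Nat.rec 0 (fun j ih => Nat.add (Bool.rec
    (Nat.mul (pw (Nat.sub s (j + 1)) a b c m) (Nat.div D (j + 1))) 0
    (Nat.beq (Nat.mod (j + 1) q) 0)) ih) x

/-- The `q`-adic test at level `N`. -/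
def qtest (s q D N r M : ℕ) : Bool :=
  force (Nat.mul (Nat.pow q (Nat.sub N 1)) (Nat.sub q 1)) fun φ => force (Nat.pow q N) fun m =>
    force (Nat.div (Nat.div (Nat.mod r φ) 128) 128) fun a =>
      force (Nat.mod (Nat.div (Nat.mod r φ) 128) 128) fun b => force (Nat.mod (Nat.mod r φ) 128) fun c =>
        Bool.rec false (Bool.rec false
          (Bool.rec true false (Nat.beq (Nat.mod (tsum s q D a b c m (Nat.sub s 1)) m) 0))
          (Nat.beq (Nat.mod M φ) 0)) (Nat.ble 1 N)

/-- Push the `x` subclasses. -/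
def push (r M M' x : ℕ) : List (ℕ × ℕ) → List (ℕ × ℕ) :=
  Nat.rec (fun st => st) (fun j ih st =>
    force (Nat.add r (Nat.mul j M)) fun r' => ih ((r', M') :: st)) x

/-- A leaf instruction of kind `a` with argument `b` excludes the class `r` modulo `M`. -/
def leaf (s q D N tab len a b r M : ℕ) : Bool :=
  Bool.rec
    (Bool.rec
      (isPr b && decide (s < b) && M % (b - 1) == 0 && rootless s b (r % (b - 1)))
      (Bool.rec false (qtest s q D b r M) (Nat.ble b N)) (Nat.beq a 1))
    (Bool.rec false (hit tab b r M) (Nat.ble (Nat.succ b) len)) (Nat.beq a 3)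

/-- Run the at most `x` instructions packed in `w`, then continue with `k`. -/
def runW (s q D N tab len : ℕ) (k : List (ℕ × ℕ) → Bool) (x : ℕ) : ℕ → List (ℕ × ℕ) → Bool :=
  Nat.rec (fun _ st => k st) (fun _ ih w st => force w fun w =>
    Bool.rec
      (force (Nat.mod w 4) fun a => force (Nat.mod (Nat.div w 4) 262144) fun b =>
        List.rec false (fun p st _ => Prod.rec (fun r M =>
          Bool.rec
            (Bool.rec false (ih (Nat.div w 1048576) st) (leaf s q D N tab len a b r M))
            (Bool.rec (force (Nat.mul M b) fun M' => ih (Nat.div w 1048576) (push r M M' b st))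
              false (Nat.beq b 0))
            (Nat.beq a 0)) p) st)
      (k st) (Nat.beq w 0)) x

/-- Run a list of packed words; the stack must end as `tg`. -/
def run (s q D N tab len : ℕ) (tg : List (ℕ × ℕ)) (ws : List ℕ) : List (ℕ × ℕ) → Bool :=
  List.rec (fun st => st == tg) (fun w _ ih st => runW s q D N tab len ih 256 w st) ws

end Pool.Agent.Lib.MP_b5d28a_nt
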