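import Mathlib

/-! The Moser polynomials, as functions on the rationals. -/

namespace Pool.Agent.Lib.MP_b5d28a_nt

/-- The binomial coefficient `x (x - 1) ⋯ (x - j + 1) / j!`. -/
def binom (x : ℚ) (j : ℕ) : ℚ := (∏ i ∈ Finset.range j, (x - i)) / (j.factorial : ℚ)

/-- The Moser polynomial `F_{s,k}(x) = ∑_{p=1}^{s} (-1)^(p-1) p^(k-1) binom(x, s-p)`. -/
def moser (s k : ℕ) (x : ℚ) : ℚ :=
  ∑ p ∈ Finset.Icc 1 s, (-1) ^ (p - 1) * (p : ℚ) ^ (k - 1) * binom x (s - p)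

end Pool.Agent.Lib.MP_b5d28a_nt
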