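import Pool.Agent.Lib.MP_b5d28a_nt.Sound

/-! Certificate for `s = 4`. -/

namespace Pool.Agent.Lib.MP_b5d28a_nt

/-- Table. -/
def tab4 : ℕ :=
  0x1000000000003b000000000000000000000000000000000000000000000000000000000000000000000000000000000000000000000000000000000000000200000000000000350000000000000000000000000000000000000000000000000000000000000000000000000000000000000000000000000000000000000000020000000000001f000000000000000000000000000000000000000000000000000000000000000000000000000000000000000000000000000000000000000010040000000000250000000000000000000000000000000000000000000000000000000000000000000000000000000000000000000000000000000000000000c00000000000001d000000000000000000000000000000000000000000000000000000000000000000000000000000000000000000000000000000000000000000090000000000110000000000000000000000000000000000000000000000000000000000000000000000000000000000000000000000000000000000000000000100000000000b000000000000000000000000000000000000000000000000000000000000000000000000000000000000000000000000000000000000000001e00000000000130000000000000000000000000000000000000000000000000000000000000000000000000000000000000000000000000000000000000000000280000000000d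

theorem claim4 : Claim 4 := by
  have tab4_ok0 : TabGood 4 tab4 0 9 :=
    tabOK_sound (a := 0) (by norm_num) 9 (by decide +kernel)
  have tab4_ok : TabGood 4 tab4 0 9 := tab4_ok0
  have fin4 : finOK tab4 9 (26 - (2 * 4 - 1)) (2 * 4 - 1) = true := by decide +kernel
  have run4_2_0 : Step 4 2 1 3
      [(0, 1)]
      [] :=
    Step.of_run 3 tab4_ok
      [0x90000d0000d0000800008]
      (by decide +kernel)
  have pd4_2 : PrimeData 4 26 4 2 :=
    ⟨2, 1, 3, run4_2_0,
    by decide +kernel, by decide +kernel, by decide +kernel,
    by decide +kernel, Or.inl (by decide +kernel)⟩
  refine no_root (K := 26) (E := 4) (by norm_num) tab4_ok fin4 (fun q hq hd => ?_) (by decide +kernel)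
  have h1 := Nat.le_of_dvd (by norm_num) hd
  interval_cases q <;> first
    | (exfalso; revert hq; norm_num; done)
    | (exfalso; revert hd; norm_num; done)
    | exact pd4_2

end Pool.Agent.Lib.MP_b5d28a_nt
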