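import Pool.Agent.Lib.MP_b5d28a_nt.S5

/-! Certificate for `s = 6`. -/

namespace Pool.Agent.Lib.MP_b5d28a_nt

/-- Table. -/
def tab6 : ℕ :=
  0x10000000000000000000000000000000000000000000000000000010000000000000000000000000001b10000000000000000000000000000000000000000000000000000000004000000000000000000000000000000000000000000000000000000000000000000010f000000000000000000000000000000000000000000000000000000000000000000000000000000000000400000000000000000000000000000000000000000b5000000000000000000000000000000000000000000000000000000000000000000000000000000000000000000000000010000000000000000000000000000a30000000000000000000000000000000000000000000000000000000000000000000000000000000000000000000000000000040000000000000000000000004f000000000000000000000000000000000000000000000000000000000000000000000000000000000000000000000000000000800010000000000000000000490000000000000000000000000000000000000000000000000000000000000000000000000000000000000000000000000000000004000004000000000000003d000000000000000000000000000000000000000000000000000000000000000000000000000000000000000000000000000000000084000000000000000000350000000000000000000000000000000000000000000000000000000000000000000000000000000000000000000000000000000000000101000000000000002f0000000000000000000000000000000000000000000000000000000000000000000000000000000000000000000000000000000000000000002000000000001300000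00000000000000000000000000000000000000000000000000000000000000000000000000000000000000000000000000000000000000080000000000d0000000000000000000000000000000000000000000000000000000000000000000000000000000000000000000000000000000000000001100200000000001d0000000000000000000000000000000000000000000000000000000000000000000000000000000000000000000000000000000000000040809000000000002b0000000000000000000000000000000000000000000000000000000000000000000000000000000000000000000000000000000000000010200800000000001f00000000000000000000000000000000000000000000000000000000000000000000000000000000000000000000000000000000000000105010000000000025000000000000000000000000000000000000000000000000000000000000000000000000000000000000000000000000000000000000163200000000000000290000000000000000000000000000000000000000000000000000000000000000000000000000000000000000000000000000000000000000072200000000001700000000000000000000000000000000000000000000000000000000000000000000000000000000000000000000000000000000000000000068000000000011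

theorem claim6 : Claim 6 := by
  have tab6_ok0 : TabGood 6 tab6 0 18 :=
    tabOK_sound (a := 0) (by norm_num) 18 (by decide +kernel)
  have tab6_ok : TabGood 6 tab6 0 18 := tab6_ok0
  have fin6 : finOK tab6 18 (86 - (2 * 6 - 1)) (2 * 6 - 1) = true := by decide +kernel
  have run6_2_0 : Step 6 2 3 1
      [(0, 1)]
      [] :=
    Step.of_run 15 tab6_ok
      [0x5]
      (by decide +kernel)
  have pd6_2 : PrimeData 6 86 6 2 :=
    ⟨1, 3, 1, run6_2_0,
    by decide +kernel, by decide +kernel, by decide +kernel,
    by decide +kernel, Or.inr (by decide +kernel)⟩
  have run6_3_0 : Step 6 3 1 5
      [(0, 1)]
      [] :=
    Step.of_run 40 tab6_ok
      [0x5000090000d0001100033000470004700008000080003b00015000150000c0002f000430003f0002f0001400008000110000c0000d0000c000090000c00008]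
      (by decide +kernel)
  have pd6_3 : PrimeData 6 86 6 3 :=
    ⟨1, 1, 5, run6_3_0,
    by decide +kernel, by decide +kernel, by decide +kernel,
    by decide +kernel, Or.inl (by decide +kernel)⟩
  refine no_root (K := 86) (E := 6) (by norm_num) tab6_ok fin6 (fun q hq hd => ?_) (by decide +kernel)
  have h1 := Nat.le_of_dvd (by norm_num) hd
  interval_cases q <;> first
    | (exfalso; revert hq; norm_num; done)
    | (exfalso; revert hd; norm_num; done)
    | exact pd6_2
    | exact pd6_3

end Pool.Agent.Lib.MP_b5d28a_nt
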