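import Pool.Agent.Lib.MP_b5d28a_nt.S7

/-! Certificate for `s = 8`. -/

namespace Pool.Agent.Lib.MP_b5d28a_nt

/-- Table. -/
def tab8 : ℕ :=
  0x800000000000000006100000000000000000000000000000000000000000000000000000000000000000000000000000000000000000000000000000000800000000000000000000049000000000000000000000000000000000000000000000000000000000000000000000000000000000000000000000000000000000400000000000000000000470000000000000000000000000000000000000000000000000000000000000000000000000000000000000000000000000000000000800800000000000000003d0000000000000000000000000000000000000000000000000000000000000000000000000000000000000000000000000000200040000000000000000000004f00000000000000000000000000000000000000000000000000000000000000000000000000000000000000000000000000000010000000400000000000000043000000000000000000000000000000000000000000000000000000000000000000000000000000000000000000000000000000000001000110000000000000350000000000000000000000000000000000000000000000000000000000000000000000000000000000000000000000000000000000000000440000000000001f0000000000000000000000000000000000000000000000000000000000000000000000000000000000000000000000000000000004118101000000000000003b00000000000000000000000000000000000000000000000000000000000000000000000000000000000000000000000000000000000a5000410000000000002f000000000000000000000000000000000000000000000000000000000000000000000000000000000000000000000000000000000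00008d0c0000000000000290000000000000000000000000000000000000000000000000000000000000000000000000000000000000000000000000000000000000000002a0000000000110000000000000000000000000000000000000000000000000000000000000000000000000000000000000000000000000000000000000000848200000000001d0000000000000000000000000000000000000000000000000000000000000000000000000000000000000000000000000000000000014524190000000000002b000000000000000000000000000000000000000000000000000000000000000000000000000000000000000000000000000000000000000010880000000000170000000000000000000000000000000000000000000000000000000000000000000000000000000000000000000000000000000000000000012800000000001300000000000000000000000000000000000000000000000000000000000000000000000000000000000000000000000000000000000000547282000000000025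

theorem claim8 : Claim 8 := by
  have tab8_ok0 : TabGood 8 tab8 0 17 :=
    tabOK_sound (a := 0) (by norm_num) 17 (by decide +kernel)
  have tab8_ok : TabGood 8 tab8 0 17 := tab8_ok0
  have fin8 : finOK tab8 17 (204 - (2 * 8 - 1)) (2 * 8 - 1) = true := by decide +kernel
  have run8_2_0 : Step 8 2 4 5
      [(0, 1)]
      [] :=
    Step.of_run 315 tab8_ok
      [0xd0000d0000800015000150000800015000150000800008000150001500008000150001500008000080000800008]
      (by decide +kernel)
  have pd8_2 : PrimeData 8 204 9 2 :=
    ⟨3, 4, 5, run8_2_0,
    by decide +kernel, by decide +kernel, by decide +kernel,
    by decide +kernel, Or.inl (by decide +kernel)⟩
  refine no_root (K := 204) (E := 9) (by norm_num) tab8_ok fin8 (fun q hq hd => ?_) (by decide +kernel)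
  have h1 := Nat.le_of_dvd (by norm_num) hd
  interval_cases q <;> first
    | (exfalso; revert hq; norm_num; done)
    | (exfalso; revert hd; norm_num; done)
    | exact pd8_2

end Pool.Agent.Lib.MP_b5d28a_nt
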