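import Pool.Agent.Lib.MP_b5d28a_nt.Defs

/-! Real estimates for the integer roots of the Moser polynomials. -/

open Finset

namespace Pool.Agent.Lib.MP_b5d28a_nt

/-- The value `± F_{s,e+1}(n)` at a natural number. -/
def H (s e n : ℕ) : ℤ := ∑ j ∈ range s, (-1) ^ j * (((s - j) ^ e * n.choose j : ℕ) : ℤ)

theorem alt_succ (b : ℕ → ℤ) (m : ℕ) : ∑ j ∈ range (m + 1), (-1) ^ j * b j =
    b 0 - ∑ j ∈ range m, (-1) ^ j * b (j + 1) := by
  rw [sum_range_succ', sub_eq_add_neg, ← sum_neg_distrib, add_comm]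
  simp only [pow_zero, one_mul, pow_succ]
  congr 1
  exact sum_congr rfl fun j _ => by ring

theorem alt_bounds (m : ℕ) : ∀ b : ℕ → ℤ, (∀ j, 0 ≤ b j) → (∀ j, j + 1 < m → b (j + 1) ≤ b j) →
    0 ≤ ∑ j ∈ range m, (-1) ^ j * b j ∧ ∑ j ∈ range m, (-1) ^ j * b j ≤ b 0 := by
  induction m with
  | zero => intro b h0 _; simpa using h0 0
  | succ m ih =>
    intro b h0 h1
    obtain ⟨i1, i2⟩ := ih (fun j => b (j + 1)) (fun j => h0 _) (fun j hj => h1 _ (by omega))
    rw [alt_succ]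
    refine ⟨?_, by linarith⟩
    rcases Nat.eq_zero_or_pos m with rfl | hm
    · simpa using h0 0
    · have := h1 0 (by omega)
      linarith

theorem moser_eq (s k : ℕ) (x : ℚ) : moser s k x =
    (-1) ^ (s - 1) * ∑ j ∈ range s, (-1) ^ j * ((s - j : ℕ) : ℚ) ^ (k - 1) * binom x j := by
  rw [moser, mul_sum]
  symm
  refine sum_bij' (fun j _ => s - j) (fun p _ => s - p) ?_ ?_ ?_ ?_ ?_
  · intro j hj; simp only [mem_range, mem_Icc] at hj ⊢; omega
  · intro p hp; simp only [mem_range, mem_Icc] at hp ⊢; omega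
  · intro j hj; simp only [mem_range] at hj; omega
  · intro p hp; simp only [mem_Icc] at hp; omega
  · intro j hj
    simp only [mem_range] at hj
    have h1 : s - (s - j) = j := by omega
    have h2 : s - 1 = (s - j - 1) + j := by omega
    rw [h1, h2, pow_add]
    have h3 : ((-1 : ℚ) ^ j) * (-1) ^ j = 1 := by rw [← mul_pow]; simp
    linear_combination ((-1) ^ (s - j - 1) * ((s - j : ℕ) : ℚ) ^ (k - 1) * binom x j) * h3

theorem prod_sub_eq (n j : ℕ) : ∏ i ∈ range j, ((n : ℤ) - i) = (j.factorial : ℤ) * n.choose j := by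
  induction j with
  | zero => simp
  | succ j ih =>
    rw [prod_range_succ, ih, Nat.factorial_succ]
    rcases le_or_gt j n with h | h
    · have := congrArg (Nat.cast : ℕ → ℤ) (Nat.choose_succ_right_eq n j)
      push_cast [Nat.cast_sub h] at this ⊢
      linear_combination (-(j.factorial : ℤ)) * this
    · simp [Nat.choose_eq_zero_of_lt h, Nat.choose_eq_zero_of_lt (Nat.lt_succ_of_lt h)]

theorem binom_nat (n j : ℕ) : binom n j = n.choose j := by
  have h := congrArg (Int.cast : ℤ → ℚ) (prod_sub_eq n j)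
  push_cast at h
  rw [binom, h]
  field_simp

theorem moser_nat (s k n : ℕ) : moser s k n = (-1) ^ (s - 1) * (H s (k - 1) n : ℚ) := by
  rw [moser_eq, H]
  push_cast
  congr 1
  exact sum_congr rfl fun j _ => by rw [binom_nat]; ring

theorem moser_ne_zero_of_nonpos {s : ℕ} (hs : 0 < s) (k : ℕ) {x : ℚ} (hx : x ≤ 0) :
    moser s k x ≠ 0 := by
  rw [moser_eq]
  refine mul_ne_zero (pow_ne_zero _ (by norm_num)) (ne_of_gt ?_)
  refine sum_pos' (fun j _ => ?_) ⟨0, mem_range.mpr hs, ?_⟩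
  · have h1 : (-1 : ℚ) ^ j * ∏ i ∈ range j, (x - i) = ∏ i ∈ range j, ((i : ℚ) - x) := by
      rw [← card_range j, ← prod_const, card_range, ← prod_mul_distrib]
      exact prod_congr rfl fun i _ => by ring
    have h2 : 0 ≤ ∏ i ∈ range j, ((i : ℚ) - x) :=
      prod_nonneg fun i _ => by have : (0 : ℚ) ≤ i := Nat.cast_nonneg i; linarith
    have h3 : (-1) ^ j * ((s - j : ℕ) : ℚ) ^ (k - 1) * binom x j =
        ((s - j : ℕ) : ℚ) ^ (k - 1) * (∏ i ∈ range j, ((i : ℚ) - x)) / j.factorial := by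
      rw [← h1, binom]; ring
    rw [h3]; positivity
  · simp only [pow_zero, one_mul, binom, range_zero, prod_empty, Nat.factorial_zero, Nat.cast_one,
      div_one, mul_one, Nat.sub_zero]
    positivity

theorem H_ne_zero_small {s e n : ℕ} (hs : 2 ≤ s) (h : n * (s - 1) ^ e < s ^ e) : H s e n ≠ 0 := by
  obtain ⟨m, rfl⟩ : ∃ m, s = m + 1 := ⟨s - 1, by omega⟩
  have key : ∀ j, j + 1 < m + 1 →
      (m + 1 - (j + 1)) ^ e * n.choose (j + 1) ≤ (m + 1 - j) ^ e * n.choose j := by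
    intro j hj
    obtain ⟨p, hp⟩ : ∃ p, m + 1 - (j + 1) = p := ⟨_, rfl⟩
    have hp' : m + 1 - j = p + 1 := by omega
    rw [hp, hp']
    have h1 : n.choose (j + 1) ≤ n.choose j * n := by
      have := Nat.choose_succ_right_eq n j
      calc n.choose (j + 1) ≤ n.choose (j + 1) * (j + 1) := Nat.le_mul_of_pos_right _ (by omega)
        _ = n.choose j * (n - j) := this
        _ ≤ _ := Nat.mul_le_mul_left _ (Nat.sub_le _ _)
    have h2 : p ^ e * (m + 1) ^ e ≤ (p + 1) ^ e * m ^ e := by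
      rw [← mul_pow, ← mul_pow]
      exact Nat.pow_le_pow_left (by nlinarith [show p ≤ m by omega]) e
    have h3 : n * p ^ e ≤ (p + 1) ^ e := by
      simp only [Nat.add_sub_cancel] at h
      refine Nat.le_of_mul_le_mul_right ?_ (show 0 < (m + 1) ^ e by positivity)
      calc n * p ^ e * (m + 1) ^ e = n * (p ^ e * (m + 1) ^ e) := by ring
        _ ≤ n * ((p + 1) ^ e * m ^ e) := Nat.mul_le_mul_left _ h2
        _ = (p + 1) ^ e * (n * m ^ e) := by ring
        _ ≤ _ := Nat.mul_le_mul_left _ h.le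
    calc p ^ e * n.choose (j + 1) ≤ p ^ e * (n.choose j * n) := Nat.mul_le_mul_left _ h1
      _ = (n * p ^ e) * n.choose j := by ring
      _ ≤ _ := Nat.mul_le_mul_right _ h3
  have h1 := (alt_bounds m (fun j => (((m + 1 - (j + 1)) ^ e * n.choose (j + 1) : ℕ) : ℤ))
    (fun j => Nat.cast_nonneg _) (fun j hj => by exact_mod_cast key (j + 1) (by omega))).2
  rw [H, alt_succ]
  have h2 : (((m + 1 - (0 + 1)) ^ e * n.choose (0 + 1) : ℕ) : ℤ) <
      (((m + 1 - 0) ^ e * n.choose 0 : ℕ) : ℤ) := by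
    simp only [Nat.add_sub_cancel] at h
    exact_mod_cast (by simpa [mul_comm] using h)
  exact ne_of_gt (by linarith)

/-- The terms in the reverse order. -/
def term (s e n p : ℕ) : ℕ := p ^ e * n.choose (s - p)

theorem H_reflect (s e n : ℕ) : H s e n =
    (-1) ^ (s - 1) * ∑ i ∈ range s, (-1) ^ i * (term s e n (i + 1) : ℤ) := by
  rw [H, ← sum_range_reflect, mul_sum]
  refine sum_congr rfl fun i hi => ?_
  have hi' := mem_range.mp hi
  have h1 : s - (s - 1 - i) = i + 1 := by omega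
  have h2 : s - 1 - i = s - (i + 1) := by omega
  have h3 : s - 1 = (s - 1 - i) + i := by omega
  have h4 : ((-1 : ℤ) ^ i) * (-1) ^ i = 1 := by rw [← mul_pow]; simp
  rw [h1, term, ← h2]
  conv_rhs => rw [h3, pow_add]
  simp only [Nat.add_sub_cancel]
  linear_combination (-(-1) ^ (s - 1 - i) * (((i + 1) ^ e * n.choose (s - 1 - i) : ℕ) : ℤ)) * h4

theorem term_ratio {s p : ℕ} (e n : ℕ) (hp : p < s) :
    term s e n p * ((p + 1) ^ e * (s - p)) = term s e n (p + 1) * (p ^ e * (n - (s - (p + 1)))) := by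
  have h1 : s - p = s - (p + 1) + 1 := by omega
  have := Nat.choose_succ_right_eq n (s - (p + 1))
  rw [term, term, h1]
  calc _ = p ^ e * (p + 1) ^ e * (n.choose (s - (p + 1) + 1) * (s - (p + 1) + 1)) := by ring
    _ = _ := by rw [this]; ring

theorem term_pos {s p e n : ℕ} (hp : 0 < p) (hn : s ≤ n) : 0 < term s e n p :=
  mul_pos (pow_pos hp _) (Nat.choose_pos (by omega))

theorem term_le {s p e n c : ℕ} (hp : p < s)
    (h : c * ((p + 1) ^ e * (s - p)) ≤ p ^ e * (n - (s - (p + 1)))) :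
    c * term s e n (p + 1) ≤ term s e n p := by
  have hpos : 0 < (p + 1) ^ e * (s - p) := mul_pos (by positivity) (by omega)
  refine Nat.le_of_mul_le_mul_right ?_ hpos
  rw [term_ratio e n hp]
  calc _ = term s e n (p + 1) * (c * ((p + 1) ^ e * (s - p))) := by ring
    _ ≤ _ := Nat.mul_le_mul_left _ h

theorem H_ne_zero_big {s e n : ℕ} (hs : 2 ≤ s) (he : s ≤ e) (h : s * 2 ^ e ≤ n) :
    H s e n ≠ 0 := by
  have h2 : s < 2 ^ e := lt_of_lt_of_le Nat.lt_two_pow_self (Nat.pow_le_pow_right (by norm_num) he)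
  have hn : s ≤ n := le_trans (Nat.le_mul_of_pos_right _ (by positivity)) h
  have key : ∀ p, 1 ≤ p → p < s → (p + 1) ^ e * (s - p) < p ^ e * (n - (s - (p + 1))) := by
    intro p hp1 hp
    have h3 : (p + 1) ^ e ≤ p ^ e * 2 ^ e := by
      rw [← mul_pow]; exact Nat.pow_le_pow_left (by omega) e
    have h4 : 2 ^ e * (s - p) < n - (s - (p + 1)) := by
      obtain ⟨t, rfl⟩ : ∃ t, s = p + t := ⟨s - p, by omega⟩
      have : 2 ^ e ≤ p * 2 ^ e := Nat.le_mul_of_pos_left _ hp1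
      rw [add_mul] at h
      rw [Nat.add_sub_cancel_left, mul_comm]
      omega
    calc _ ≤ p ^ e * 2 ^ e * (s - p) := Nat.mul_le_mul_right _ h3
      _ = p ^ e * (2 ^ e * (s - p)) := by ring
      _ < _ := Nat.mul_lt_mul_of_pos_left h4 (by positivity)
  obtain ⟨m, rfl⟩ : ∃ m, s = m + 1 := ⟨s - 1, by omega⟩
  have h1 := (alt_bounds m (fun j => (term (m + 1) e n (j + 1 + 1) : ℤ))
    (fun j => Nat.cast_nonneg _) (fun j hj => by
      have := term_le (c := 1) (e := e) (n := n) (show j + 1 + 1 < m + 1 by omega)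
        (by simpa using (key (j + 1 + 1) (by omega) (by omega)).le)
      exact_mod_cast (by simpa using this))).2
  have h5 : term (m + 1) e n 2 < term (m + 1) e n 1 := by
    have hpos : 0 < (1 + 1) ^ e * (m + 1 - 1) := mul_pos (by positivity) (by omega)
    refine Nat.lt_of_mul_lt_mul_right (a := (1 + 1) ^ e * (m + 1 - 1)) ?_
    rw [term_ratio e n (show 1 < m + 1 by omega)]
    exact Nat.mul_lt_mul_of_pos_left (key 1 le_rfl (by omega)) (term_pos (by norm_num) hn)
  rw [H_reflect, alt_succ]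
  refine mul_ne_zero (pow_ne_zero _ (by norm_num)) (ne_of_gt ?_)
  have : (term (m + 1) e n 2 : ℤ) < term (m + 1) e n 1 := by exact_mod_cast h5
  simp only [zero_add] at h1 ⊢
  linarith

theorem H_ne_zero_two {s e n : ℕ} (hs : 4 ≤ s) (he : s ≤ e) (h4 : 4 * s ^ 2 * 3 ^ e ≤ 4 ^ e)
    (hn0 : 0 < n) (hd : 2 ^ e ∣ n) : H s e n ≠ 0 := by
  obtain ⟨c, hc⟩ := hd
  by_cases hcs : s ≤ c
  · exact H_ne_zero_big (by omega) he (by rw [hc, mul_comm]; exact Nat.mul_le_mul_left _ hcs)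
  have hc0 : 0 < c := Nat.pos_of_ne_zero (by rintro rfl; omega)
  have h2 : s < 2 ^ e := lt_of_lt_of_le Nat.lt_two_pow_self (Nat.pow_le_pow_right (by norm_num) he)
  have hn2 : 2 ^ e ≤ n := by rw [hc]; exact Nat.le_mul_of_pos_right _ hc0
  have hn : s ≤ n := by omega
  have h23 : 2 ^ e ≤ 3 ^ e := Nat.pow_le_pow_left (by norm_num) e
  have key : ∀ p, 2 ≤ p → p < s → 2 * s * term s e n (p + 1) ≤ term s e n p := by
    intro p hp1 hp
    refine term_le hp (Nat.le_of_mul_le_mul_right ?_ (show 0 < 2 ^ e by positivity))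
    have h3 : (p + 1) ^ e * 2 ^ e ≤ p ^ e * 3 ^ e := by
      rw [← mul_pow, ← mul_pow]; exact Nat.pow_le_pow_left (by omega) e
    have h5 : 2 * s ^ 2 * 3 ^ e ≤ (n - s) * 2 ^ e := by
      have e1 : 4 ^ e = 2 ^ e * 2 ^ e := by rw [← mul_pow]; norm_num
      have e2 : s * 2 ^ e ≤ 2 * s ^ 2 * 3 ^ e := Nat.mul_le_mul (by nlinarith) h23
      have e3 : 2 ^ e * 2 ^ e ≤ n * 2 ^ e := Nat.mul_le_mul_right _ hn2
      have e4 : 4 * s ^ 2 * 3 ^ e = 2 * (2 * s ^ 2 * 3 ^ e) := by ring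
      rw [Nat.sub_mul]
      omega
    calc _ = 2 * s * (s - p) * ((p + 1) ^ e * 2 ^ e) := by ring
      _ ≤ 2 * s * s * (p ^ e * 3 ^ e) :=
        Nat.mul_le_mul (Nat.mul_le_mul_left _ (Nat.sub_le _ _)) h3
      _ = p ^ e * (2 * s ^ 2 * 3 ^ e) := by ring
      _ ≤ p ^ e * ((n - (s - (p + 1))) * 2 ^ e) :=
        Nat.mul_le_mul_left _ (h5.trans (Nat.mul_le_mul_right _ (by omega)))
      _ = _ := by ring
  obtain ⟨m, rfl⟩ : ∃ m, s = m + 3 := ⟨s - 3, by omega⟩
  obtain ⟨b1, b2⟩ := alt_bounds m (fun j => (term (m + 3) e n (j + 1 + 1 + 1 + 1) : ℤ))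
    (fun j => Nat.cast_nonneg _) (fun j hj => by
      have := key (j + 1 + 1 + 1 + 1) (by omega) (by omega)
      exact_mod_cast le_trans (Nat.le_mul_of_pos_left _ (by omega)) this)
  rw [H_reflect, alt_succ, alt_succ, alt_succ]
  refine mul_ne_zero (pow_ne_zero _ (by norm_num)) ?_
  simp only [zero_add] at b2 ⊢
  generalize (∑ j ∈ range m, (-1 : ℤ) ^ j * (term (m + 3) e n (j + 1 + 1 + 1 + 1) : ℤ)) = A at *
  have k2 : 2 * ((m : ℤ) + 3) * term (m + 3) e n 3 ≤ term (m + 3) e n 2 := by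
    exact_mod_cast key 2 le_rfl (by omega)
  have k3 : 2 * ((m : ℤ) + 3) * term (m + 3) e n 4 ≤ term (m + 3) e n 3 := by
    exact_mod_cast key 3 (by norm_num) (by omega)
  have r1 : (term (m + 3) e n 1 : ℤ) * (2 ^ e * (m + 2)) = term (m + 3) e n 2 * (n - (m + 1)) := by
    have := congrArg (Nat.cast : ℕ → ℤ) (term_ratio e n (show 1 < m + 3 by omega))
    rw [show m + 3 - 1 = m + 2 by omega, show m + 3 - (1 + 1) = m + 1 by omega] at this
    push_cast [Nat.cast_sub (show m + 1 ≤ n by omega)] at this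
    simpa using this
  have r2 : (term (m + 3) e n 2 : ℤ) * (3 ^ e * (m + 1)) = term (m + 3) e n 3 * (2 ^ e * (n - m)) := by
    have := congrArg (Nat.cast : ℕ → ℤ) (term_ratio e n (show 2 < m + 3 by omega))
    rw [show m + 3 - 2 = m + 1 by omega, show m + 3 - (2 + 1) = m by omega] at this
    push_cast [Nat.cast_sub (show m ≤ n by omega)] at this
    simpa using this
  have p2 : (0 : ℤ) < term (m + 3) e n 2 := by exact_mod_cast term_pos (by norm_num) hn
  have p3 : (0 : ℤ) ≤ term (m + 3) e n 3 := Nat.cast_nonneg _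
  have p4 : (0 : ℤ) ≤ term (m + 3) e n 4 := Nat.cast_nonneg _
  have hX : (0 : ℤ) < 2 ^ e := by positivity
  have hm : (0 : ℤ) ≤ m := Nat.cast_nonneg _
  have hcz : (n : ℤ) = 2 ^ e * c := by exact_mod_cast hc
  change (term (m + 3) e n 1 : ℤ) - (term (m + 3) e n 2 - (term (m + 3) e n 3 - A)) ≠ 0
  change A ≤ (term (m + 3) e n 4 : ℤ) at b2
  generalize (term (m + 3) e n 1 : ℤ) = a1 at *
  generalize (term (m + 3) e n 2 : ℤ) = a2 at *
  generalize (term (m + 3) e n 3 : ℤ) = a3 at *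
  generalize (term (m + 3) e n 4 : ℤ) = a4 at *
  by_cases hcm : c ≤ m + 1
  · have hcm' : (c : ℤ) ≤ m + 1 := by exact_mod_cast hcm
    have t1 : a1 * (m + 2) ≤ a2 * (m + 1) := by
      refine le_of_mul_le_mul_left ?_ hX
      have : a2 * (n - (m + 1)) ≤ a2 * (2 ^ e * (m + 1)) :=
        mul_le_mul_of_nonneg_left (by nlinarith) p2.le
      nlinarith
    intro h0
    have : a1 = a2 - a3 + A := by linarith
    rw [this] at t1
    nlinarith
  · have hcm' : (c : ℤ) = m + 2 := by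
      have : c = m + 2 := by omega
      exact_mod_cast this
    rw [hcm'] at hcz
    have h32 : (2 : ℤ) * 2 ^ e < 3 ^ e := by
      obtain ⟨f, rfl⟩ : ∃ f, e = f + 2 := ⟨e - 2, by omega⟩
      have : (2 : ℤ) ^ f ≤ 3 ^ f := pow_le_pow_left₀ (by norm_num) (by norm_num) f
      have h0 : (0 : ℤ) < 2 ^ f := by positivity
      rw [pow_add, pow_add]; linarith
    rw [← hcz] at r1
    have hnz : (0 : ℤ) < n := by exact_mod_cast hn0
    have t2 : 2 * (a2 * (m + 1)) < a3 * n := by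
      refine lt_of_mul_lt_mul_left ?_ hX.le
      have u1 : a2 * (m + 1) * (2 * 2 ^ e) < a2 * (m + 1) * 3 ^ e :=
        mul_lt_mul_of_pos_left h32 (by positivity)
      have u2 : 0 ≤ a3 * (2 ^ e * m) := by positivity
      nlinarith
    intro h0
    have t3 : 2 * A ≤ a3 := by nlinarith
    have : a1 = a2 - a3 + A := by linarith
    rw [this] at r1
    nlinarith

end Pool.Agent.Lib.MP_b5d28a_nt
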