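import Pool.Agent.Lib.MP_b5d28a_nt.Check
import Pool.Agent.Lib.MP_b5d28a_nt.Sign

/-! Soundness of the certificate checker. -/

open Finset

namespace Pool.Agent.Lib.MP_b5d28a_nt

theorem force_eq {α : Type} (n : ℕ) (f : ℕ → α) : force n f = f n := by
  cases n <;> rfl

theorem bool_rec_true {a b c : Bool} (h : (Bool.rec a b c : Bool) = true) :
    (c = false ∧ a = true) ∨ (c = true ∧ b = true) := by
  cases c
  · exact Or.inl ⟨rfl, h⟩
  · exact Or.inr ⟨rfl, h⟩

theorem bool_rec_and {b c : Bool} (h : (Bool.rec false b c : Bool) = true) :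
    c = true ∧ b = true := by
  cases c
  · exact absurd h (by simp)
  · exact ⟨rfl, h⟩

theorem noDiv_sound {l : ℕ} : ∀ x, noDiv l x = true → ∀ d, 2 ≤ d → d ≤ x → ¬ d ∣ l := by
  intro x
  induction x with
  | zero => intro _ d h1 h2; omega
  | succ x ih =>
    intro h d h1 h2
    change (Bool.rec (Bool.rec (noDiv l x) false (Nat.beq (l % (x + 1)) 0)) true
      (Nat.beq x 0) : Bool) = true at h
    rcases bool_rec_true h with ⟨-, h⟩ | ⟨h, -⟩
    · rcases bool_rec_true h with ⟨h4, h⟩ | ⟨-, h⟩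
      · rcases Nat.lt_or_ge x d with h3 | h3
        · obtain rfl : d = x + 1 := by omega
          exact fun hd => Nat.ne_of_beq_eq_false h4 (Nat.mod_eq_zero_of_dvd hd)
        · exact ih h d h1 h3
      · exact absurd h (by simp)
    · have := Nat.eq_of_beq_eq_true h
      omega

theorem isPr_sound {l : ℕ} (h : isPr l = true) : l.Prime := by
  simp only [isPr, Bool.and_eq_true, decide_eq_true_eq] at h
  obtain ⟨h1, h3⟩ := h
  rw [Nat.prime_def_le_sqrt]
  refine ⟨h1, fun m hm hm' => noDiv_sound _ h3 m hm (le_min ?_ hm')⟩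
  have := Nat.sqrt_lt_self (show 1 < l by omega)
  omega

/-- Digits in base `b`. -/
def digs (b : ℕ) (f : ℕ → ℕ) (m : ℕ) : ℕ := ∑ i ∈ range m, f i * b ^ i

theorem digs_succ (b : ℕ) (f : ℕ → ℕ) (m : ℕ) :
    digs b f (m + 1) = f 0 + b * digs b (fun i => f (i + 1)) m := by
  rw [digs, sum_range_succ', digs, mul_sum, add_comm]
  simp only [pow_zero, mul_one]
  congr 1
  exact sum_congr rfl fun i _ => by ring

theorem pack_eq (s l r b : ℕ) : ∀ m j, pack s l r b m j = digs b (fun i => coef s l r (j + i)) m := by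
  intro m
  induction m with
  | zero => intro j; rfl
  | succ m ih =>
    intro j
    change force j (fun j => coef s l r j + b * pack s l r b m (j + 1)) = _
    rw [force_eq, ih, digs_succ]
    simp only [add_zero, add_assoc, add_comm 1]

/-- Iterated forward sums. -/
def fw (g : ℕ → ℕ) : ℕ → ℕ → ℕ
  | 0, i => g i
  | x + 1, i => fw g x i + fw g x (i + 1)

theorem fw_eq (g : ℕ → ℕ) (x : ℕ) : ∀ i, fw g x i = ∑ j ∈ range (x + 1), x.choose j * g (i + j) := by
  induction x with
  | zero => intro i; simp [fw]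
  | succ x ih =>
    intro i
    have := Finset.sum_choose_succ_mul (R := ℕ) (fun j _ => g (i + j)) x
    simp only [Nat.cast_id] at this
    rw [fw, ih, ih, this]
    simp only [add_assoc, add_comm 1]

theorem fw_zero {g : ℕ → ℕ} {s : ℕ} (hg : ∀ i, s ≤ i → g i = 0) (x : ℕ) :
    ∀ i, s ≤ i → fw g x i = 0 := by
  induction x with
  | zero => exact hg
  | succ x ih => intro i hi; rw [fw, ih i hi, ih (i + 1) (by omega)]

theorem fw_eq' {g : ℕ → ℕ} {s : ℕ} (hg : ∀ i, s ≤ i → g i = 0) (x : ℕ) :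
    fw g x 0 = ∑ j ∈ range s, x.choose j * g j := by
  rw [fw_eq]
  simp only [zero_add]
  rw [sum_subset (range_subset_range.mpr (le_max_left (x + 1) s)),
    sum_subset (range_subset_range.mpr (le_max_right (x + 1) s))]
  · intro j _ hj
    rw [hg j (by simpa using hj), mul_zero]
  · intro j _ hj
    rw [Nat.choose_eq_zero_of_lt (by simpa [Nat.lt_succ_iff] using hj), zero_mul]

theorem scan_succ (l B mm x V : ℕ) : scan l B mm (x + 1) V = force V fun V =>
    Bool.rec (scan l B mm x (V + V >>> B)) false (Nat.beq ((V &&& mm) % l) 0) := rfl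

theorem scan_sound {g : ℕ → ℕ} {m l B : ℕ} (hg : ∀ i, m + 1 ≤ i → g i = 0) :
    ∀ x y, (∀ z, z < y + x → fw g z 0 < 2 ^ B) →
      scan l B (2 ^ B - 1) x (digs (2 ^ B) (fw g y) (m + 1)) = true →
      ∀ z, y ≤ z → z < y + x → ¬ l ∣ fw g z 0 := by
  intro x
  induction x with
  | zero => intro y _ _ z h1 h2; omega
  | succ x ih =>
    intro y hb h z h1 h2
    have hy := hb y (by omega)
    rw [scan_succ, force_eq, Nat.and_two_pow_sub_one_eq_mod, Nat.shiftRight_eq_div_pow] at h
    have e1 : digs (2 ^ B) (fw g y) (m + 1) % 2 ^ B = fw g y 0 := by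
      rw [digs_succ, Nat.add_mul_mod_self_left, Nat.mod_eq_of_lt hy]
    have e2 : digs (2 ^ B) (fw g y) (m + 1) / 2 ^ B = digs (2 ^ B) (fun i => fw g y (i + 1)) m := by
      rw [digs_succ, Nat.add_mul_div_left _ _ (by positivity), Nat.div_eq_of_lt hy, zero_add]
    have e3 : digs (2 ^ B) (fw g y) (m + 1) + digs (2 ^ B) (fun i => fw g y (i + 1)) m =
        digs (2 ^ B) (fw g (y + 1)) (m + 1) := by
      have : digs (2 ^ B) (fun i => fw g y (i + 1)) m =
          digs (2 ^ B) (fun i => fw g y (i + 1)) (m + 1) := by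
        rw [digs, digs, sum_range_succ, fw_zero hg y (m + 1) le_rfl]; simp
      rw [this, digs, digs, digs, ← sum_add_distrib]
      exact sum_congr rfl fun i _ => by rw [fw]; ring
    rw [e1, e2, e3] at h
    cases hb0 : Nat.beq (fw g y 0 % l) 0 with
    | true => rw [hb0] at h; exact absurd h (by simp)
    | false =>
      rw [hb0] at h
      rcases Nat.eq_or_lt_of_le h1 with rfl | h3
      · exact fun hd => Nat.ne_of_beq_eq_false hb0 (Nat.mod_eq_zero_of_dvd hd)
      · exact ih (y + 1) (fun z hz => hb z (by omega)) h z h3 (by omega)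

theorem pow_modEq_of_totient {a m e r : ℕ} (h : a.Coprime m) (he : e ≡ r [MOD m.totient]) :
    a ^ e ≡ a ^ r [MOD m] := by
  have key : ∀ e, a ^ e ≡ a ^ (e % m.totient) [MOD m] := by
    intro e
    conv_lhs => rw [← Nat.div_add_mod e m.totient, pow_add, pow_mul]
    have := ((Nat.ModEq.pow_totient h).pow (e / m.totient)).mul_right (a ^ (e % m.totient))
    simpa using this
  exact (key e).trans (by rw [he]; exact (key r).symm)

theorem rootless_sound {s l r e : ℕ} (hs : 0 < s) (hl : l.Prime) (hsl : s < l)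
    (h : rootless s l r = true) (he : e ≡ r [MOD l - 1]) (n : ℕ) : H s e n ≠ 0 := by
  obtain ⟨m, rfl⟩ : ∃ m, s = m + 1 := ⟨s - 1, by omega⟩
  have := Fact.mk hl
  let g : ℕ → ℕ := fun i => if i < m + 1 then coef (m + 1) l r i else 0
  have hg : ∀ i, m + 1 ≤ i → g i = 0 := fun i hi => if_neg (by omega)
  rw [rootless, force_eq, force_eq, pack_eq] at h
  set B := Nat.log2 ((m + 1) * l ^ (m + 1 + 1)) + 1
  change scan l B (2 ^ B - 1) l (digs (2 ^ B) (fun i => coef (m + 1) l r (0 + i)) (m + 1)) = true at h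
  have hcoef : ∀ j, coef (m + 1) l r j = (if j % 2 = 0 then 1 else l - 1) * (m + 1 - j) ^ r % l := by
    intro j
    change (Bool.rec (l - 1) 1 (Nat.beq (j % 2) 0) : ℕ) * (m + 1 - j) ^ r % l = _
    cases hb : Nat.beq (j % 2) 0 with
    | true => rw [if_pos (Nat.eq_of_beq_eq_true hb)]
    | false => rw [if_neg (Nat.ne_of_beq_eq_false hb)]
  have hd : digs (2 ^ B) (fun i => coef (m + 1) l r (0 + i)) (m + 1) =
      digs (2 ^ B) (fw g 0) (m + 1) :=
    sum_congr rfl fun i hi => by simp only [fw, g, zero_add, if_pos (mem_range.mp hi)]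
  rw [hd] at h
  have hb : ∀ z, z < 0 + l → fw g z 0 < 2 ^ B := by
    intro z hz
    refine lt_of_le_of_lt ?_ Nat.lt_log2_self
    rw [fw_eq' hg]
    refine (sum_le_card_nsmul _ _ (l ^ (m + 1 + 1)) fun j hj => ?_).trans (by simp)
    have h1 : z.choose j ≤ l ^ (m + 1) :=
      (Nat.choose_le_pow z j).trans ((Nat.pow_le_pow_left (by omega) j).trans
        (Nat.pow_le_pow_right hl.pos (mem_range.mp hj).le))
    have h2 : g j ≤ l := by
      simp only [g, if_pos (mem_range.mp hj), hcoef]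
      exact (Nat.mod_lt _ hl.pos).le
    rw [pow_succ]
    exact Nat.mul_le_mul h1 h2
  have hn := scan_sound hg l 0 hb h (n % l) (Nat.zero_le _) (by simpa using Nat.mod_lt _ hl.pos)
  intro h0
  apply hn
  rw [← ZMod.natCast_eq_zero_iff, fw_eq' hg]
  have h1 := congrArg (Int.cast : ℤ → ZMod l) h0
  rw [H] at h1
  push_cast at h1 ⊢
  rw [← h1]
  refine sum_congr rfl fun j hj => ?_
  have hj' := mem_range.mp hj
  have c1 : (((n % l).choose j : ℕ) : ZMod l) = (n.choose j : ℕ) := by
    rw [ZMod.natCast_eq_natCast_iff]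
    have := Choose.choose_modEq_choose_mod_mul_choose_div_nat (n := n) (k := j) (p := l)
    rw [Nat.mod_eq_of_lt (show j < l by omega), Nat.div_eq_of_lt (show j < l by omega)] at this
    simpa using this.symm
  have c2 : (((m + 1 - j : ℕ) : ZMod l)) ^ e = ((m + 1 - j : ℕ) : ZMod l) ^ r := by
    rw [← Nat.cast_pow, ← Nat.cast_pow, ZMod.natCast_eq_natCast_iff]
    refine pow_modEq_of_totient ?_ (by rwa [Nat.totient_prime hl])
    exact (Nat.coprime_of_lt_prime (by omega) (by omega) hl).symm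
  have c3 : ((g j : ℕ) : ZMod l) = (-1) ^ j * ((m + 1 - j : ℕ) : ZMod l) ^ r := by
    simp only [g, if_pos hj', hcoef, ZMod.natCast_mod, Nat.cast_mul, Nat.cast_pow]
    congr 1
    rcases Nat.even_or_odd j with hp | hp
    · rw [if_pos (Nat.even_iff.mp hp), hp.neg_one_pow]; simp
    · rw [if_neg (by rw [Nat.odd_iff.mp hp]; norm_num), hp.neg_one_pow, Nat.cast_sub hl.one_le]
      simp
  rw [c1, c2, c3]
  ring

theorem tb_sound {m r : ℕ} (h : tb m r = true) : m.testBit r = true := by
  have h1 : m >>> r % 2 = 1 := Nat.eq_of_beq_eq_true h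
  rw [Nat.testBit_eq_decide_div_mod_eq, ← Nat.shiftRight_eq_div_pow]
  exact decide_eq_true h1

theorem maskOK_sound {s l : ℕ} : ∀ x o m, maskOK s l x o m = true → ∀ r,
    m.testBit r = true → rootless s l (o + r) = true := by
  intro x
  induction x with
  | zero =>
    intro o m h r hr
    rw [Nat.eq_of_beq_eq_true h] at hr
    simp at hr
  | succ x ih =>
    intro o m h r hr
    change force o (fun o => force m fun m => Bool.rec (Bool.rec false (maskOK s l x (o + 1) (m / 2))
      (Bool.rec (rootless s l o) true (Nat.beq (m % 2) 0))) true (Nat.beq m 0)) = true at h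
    rw [force_eq, force_eq] at h
    rcases bool_rec_true h with ⟨-, h⟩ | ⟨h, -⟩
    · obtain ⟨h1, h2⟩ := bool_rec_and h
      rcases r with _ | r
      · rcases bool_rec_true h1 with ⟨-, h3⟩ | ⟨h3, -⟩
        · exact h3
        · have h4 := Nat.eq_of_beq_eq_true h3
          rw [Nat.testBit_zero, h4] at hr
          simp at hr
      · rw [Nat.testBit_succ] at hr
        have := ih _ _ h2 r hr
        rwa [show o + 1 + r = o + (r + 1) by omega] at this
    · rw [Nat.eq_of_beq_eq_true h] at hr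
      simp at hr

/-- The semantic content of the slots `a ≤ i < b` of a table. -/
def TabGood (s tab a b : ℕ) : Prop :=
  ∀ i, a ≤ i → i < b → ∀ e j, (slot tab i / 1099511627776).testBit j = true →
    e % (slot tab i % 1048576 - 1) = slot tab i / 1048576 % 1048576 + j → ∀ n, H s e n ≠ 0

theorem tabOK_sound {s tab a : ℕ} (hs : 0 < s) : ∀ x, tabOK s tab a x = true →
    TabGood s tab a (a + x) := by
  intro x
  induction x with
  | zero => intro _ i h1 h2; omega
  | succ x ih =>
    intro h i h1 h2 e j hj he n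
    simp only [tabOK, force_eq, Bool.and_eq_true, decide_eq_true_eq] at h
    obtain ⟨⟨⟨h3, h4⟩, h5⟩, h6⟩ := h
    rcases Nat.lt_or_ge i (a + x) with h7 | h7
    · exact ih h6 i h1 h7 e j hj he n
    · obtain rfl : i = a + x := by omega
      exact rootless_sound hs (isPr_sound h3) h4 (maskOK_sound _ _ _ h5 _ hj)
        (by rw [← he]; exact (Nat.mod_modEq _ _).symm) n

theorem TabGood.append {s tab a b c : ℕ} (h₁ : TabGood s tab a b) (h₂ : TabGood s tab b c) :
    TabGood s tab a c := fun i h1 h2 =>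
  (Nat.lt_or_ge i b).elim (h₁ i h1) (fun h => h₂ i h h2)

theorem hit_sound {s tab len i r M e : ℕ} (hg : TabGood s tab 0 len) (hi : i < len)
    (he : e ≡ r [MOD M]) (h : hit tab i r M = true) : ∀ n, H s e n ≠ 0 := by
  rw [hit, force_eq, force_eq, force_eq, force_eq] at h
  obtain ⟨h1, h2⟩ := bool_rec_and h
  obtain ⟨h4, h5⟩ := bool_rec_and h2
  refine hg i (Nat.zero_le _) hi e _ (tb_sound h5) ?_
  have h3 : M % (slot tab i % 1048576 - 1) = 0 := Nat.eq_of_beq_eq_true h1
  rw [he.of_dvd (Nat.dvd_of_mod_eq_zero h3)]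
  exact (Nat.add_sub_cancel' (Nat.le_of_ble_eq_true h4)).symm

theorem look_sound {s tab len e : ℕ} (hg : TabGood s tab 0 len) : ∀ x i, i + x ≤ len →
    look tab e x i = true → ∀ n, H s e n ≠ 0 := by
  intro x
  induction x with
  | zero => intro i _ h; exact absurd h (by simp [look])
  | succ x ih =>
    intro i hi h
    change force i (fun i => Bool.rec (look tab e x (i + 1)) true (hit tab i e 0)) = true at h
    rw [force_eq] at h
    rcases bool_rec_true h with ⟨-, h⟩ | ⟨h, -⟩
    · exact ih _ (by omega) h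
    · exact hit_sound hg (by omega) (Nat.ModEq.refl e) h

theorem finOK_sound {s tab len : ℕ} (hg : TabGood s tab 0 len) : ∀ x a,
    finOK tab len x a = true → ∀ e, a ≤ e → e < a + x → ∀ n, H s e n ≠ 0 := by
  intro x
  induction x with
  | zero => intro a _ e h1 h2; omega
  | succ x ih =>
    intro a h e h1 h2
    change force a (fun a => Bool.rec false (finOK tab len x (a + 1)) (look tab a len 0)) = true at h
    rw [force_eq] at h
    obtain ⟨h3, h4⟩ := bool_rec_and h
    rcases Nat.eq_or_lt_of_le h1 with rfl | h5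
    · exact look_sound hg _ 0 (by omega) h3
    · exact ih _ h4 e h5 (by omega)

/-- The first-order term in `n`. -/
def T (s e : ℕ) : ℕ := ∑ j ∈ range (s - 1), (s - (j + 1)) ^ e * ((s - 1).factorial / (j + 1))

theorem prod_sub_cong (n : ℤ) (j : ℕ) :
    n ^ 2 ∣ ∏ i ∈ range (j + 1), (n - i) - n * (-1) ^ j * j.factorial := by
  induction j with
  | zero => simp
  | succ j ih =>
    rw [prod_range_succ, Nat.factorial_succ]
    obtain ⟨c, hc⟩ := ih
    refine ⟨c * (n - (j + 1 : ℕ)) + (-1) ^ j * j.factorial, ?_⟩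
    rw [sub_eq_iff_eq_add.mp hc]
    push_cast
    ring

theorem sq_dvd {s e n : ℕ} (hs : 0 < s) (h : H s e n = 0) :
    (n : ℤ) ^ 2 ∣ ((s - 1).factorial * s ^ e : ℕ) - n * (T s e : ℤ) := by
  obtain ⟨m, rfl⟩ : ∃ m, s = m + 1 := ⟨s - 1, by omega⟩
  rw [H, alt_succ, sub_eq_zero] at h
  simp only [Nat.add_sub_cancel, Nat.sub_zero, Nat.choose_zero_right, mul_one] at h ⊢
  rw [Nat.cast_mul, h, T, Nat.add_sub_cancel, Nat.cast_sum, mul_sum, mul_sum, ← sum_sub_distrib]
  refine dvd_sum fun j hj => ?_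
  have hj' := mem_range.mp hj
  obtain ⟨c, hc⟩ := Nat.factorial_dvd_factorial (show j + 1 ≤ m by omega)
  have h1 : m.factorial / (j + 1) = j.factorial * c := by
    rw [hc, Nat.factorial_succ, mul_assoc, Nat.mul_div_cancel_left _ (by omega)]
  obtain ⟨d, hd⟩ := prod_sub_cong n j
  rw [prod_sub_eq] at hd
  rw [h1, hc]
  refine ⟨(-1) ^ j * c * ((m + 1 - (j + 1) : ℕ) : ℤ) ^ e * d, ?_⟩
  have h4 : ((-1 : ℤ) ^ j) * (-1) ^ j = 1 := by rw [← mul_pow]; simp
  generalize m + 1 - (j + 1) = p
  push_cast at hd ⊢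
  linear_combination ((-1) ^ j * c * (p : ℤ) ^ e) * hd + (c * (p : ℤ) ^ e * n * j.factorial) * h4

theorem pw_modEq (p a b c m : ℕ) : pw p a b c m ≡ p ^ (128 * (128 * a + b) + c) [MOD m] := by
  change ((p ^ 128 % m) ^ 128 % m) ^ a % m * ((p ^ 128 % m) ^ b % m) * p ^ c % m ≡ _ [MOD m]
  rw [pow_add, pow_mul, pow_add, pow_mul]
  exact (Nat.mod_modEq _ _).trans ((((Nat.mod_modEq _ _).trans (((Nat.mod_modEq _ _).trans
    ((Nat.mod_modEq _ _).pow 128)).pow a)).mul ((Nat.mod_modEq _ _).trans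
    ((Nat.mod_modEq _ _).pow b))).mul_right _)

theorem tsum_eq (s q D a b c m x : ℕ) : tsum s q D a b c m x =
    ∑ j ∈ range x, if (j + 1) % q = 0 then 0 else pw (s - (j + 1)) a b c m * (D / (j + 1)) := by
  induction x with
  | zero => rfl
  | succ x ih =>
    rw [sum_range_succ, ← ih, add_comm (tsum s q D a b c m x)]
    change (Bool.rec (pw (s - (x + 1)) a b c m * (D / (x + 1))) 0 (Nat.beq ((x + 1) % q) 0) : ℕ) +
      tsum s q D a b c m x = _
    congr 1
    cases hb : Nat.beq ((x + 1) % q) 0 with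
    | true => rw [if_pos (Nat.eq_of_beq_eq_true hb)]
    | false => rw [if_neg (Nat.ne_of_beq_eq_false hb)]

theorem qtest_sound {s q D w N r M e : ℕ} (hq : q.Prime) (hqs : q ∣ s)
    (hD : D * q ^ w = (s - 1).factorial) (he : e ≡ r [MOD M]) (hN : N + w ≤ e)
    (h : qtest s q D N r M = true) : ¬ q ^ (N + w) ∣ T s e := by
  rw [qtest, force_eq, force_eq, force_eq, force_eq, force_eq] at h
  obtain ⟨g1, h⟩ := bool_rec_and h
  obtain ⟨g2, h⟩ := bool_rec_and h
  have h1 : 1 ≤ N := Nat.le_of_ble_eq_true g1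
  have h2 : M % (q ^ (N - 1) * (q - 1)) = 0 := Nat.eq_of_beq_eq_true g2
  have h3 : tsum s q D (r % (q ^ (N - 1) * (q - 1)) / 128 / 128)
      (r % (q ^ (N - 1) * (q - 1)) / 128 % 128) (r % (q ^ (N - 1) * (q - 1)) % 128) (q ^ N)
      (s - 1) % q ^ N ≠ 0 := by
    rcases bool_rec_true h with ⟨h, -⟩ | ⟨-, h⟩
    · exact Nat.ne_of_beq_eq_false h
    · exact absurd h (by simp)
  intro hd
  apply h3
  have hφ : (q ^ N).totient = q ^ (N - 1) * (q - 1) := Nat.totient_prime_pow hq h1
  rw [← hφ] at h2 ⊢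
  have key : T s e ≡ tsum s q D (r % (q ^ N).totient / 128 / 128)
      (r % (q ^ N).totient / 128 % 128) (r % (q ^ N).totient % 128) (q ^ N) (s - 1) * q ^ w [MOD q ^ N * q ^ w] := by
    rw [tsum_eq, T, sum_mul]
    refine Nat.ModEq.sum fun j hj => ?_
    have hj' := mem_range.mp hj
    split_ifs with hjq
    · rw [zero_mul, Nat.modEq_zero_iff_dvd, ← pow_add]
      refine Dvd.dvd.mul_right ((pow_dvd_pow q hN).trans (pow_dvd_pow_of_dvd ?_ e)) _
      exact Nat.dvd_sub hqs (Nat.dvd_of_mod_eq_zero hjq)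
    · have hc : ¬ q ∣ j + 1 := fun h => hjq (Nat.mod_eq_zero_of_dvd h)
      have hjD : j + 1 ∣ D := by
        refine Nat.Coprime.dvd_of_dvd_mul_right
          (Nat.Coprime.pow_right w ((Nat.Prime.coprime_iff_not_dvd hq).mpr hc).symm) ?_
        rw [hD]
        exact Nat.dvd_factorial (by omega) (by omega)
      obtain ⟨c, hc'⟩ := hjD
      rw [← hD, hc', mul_assoc (j + 1), Nat.mul_div_cancel_left _ (by omega),
        Nat.mul_div_cancel_left _ (by omega), ← mul_assoc]
      refine Nat.ModEq.mul_right' _ (Nat.ModEq.mul_right _ ?_)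
      refine Nat.ModEq.trans ?_ (pw_modEq _ _ _ _ _).symm
      rw [Nat.div_add_mod, Nat.div_add_mod]
      refine pow_modEq_of_totient (Nat.Coprime.pow_right N ?_)
        ((he.of_dvd (Nat.dvd_of_mod_eq_zero h2)).trans (Nat.mod_modEq _ _).symm)
      refine ((Nat.Prime.coprime_iff_not_dvd hq).mpr fun h => hc ?_).symm
      have := Nat.dvd_sub hqs h
      rwa [show s - (s - (j + 1)) = j + 1 by omega] at this
  rw [pow_add] at hd
  have := (key.dvd_iff dvd_rfl).mp hd
  exact Nat.mod_eq_zero_of_dvd (Nat.dvd_of_mul_dvd_mul_right (pow_pos hq.pos w) this)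

/-- The exponent lies in one of the classes of the stack. -/
def Cov (e : ℕ) (st : List (ℕ × ℕ)) : Prop := ∃ p ∈ st, e ≡ p.1 [MOD p.2]

theorem mem_push {r M M' : ℕ} {p : ℕ × ℕ} : ∀ x st,
    (p ∈ st ∨ ∃ j, j < x ∧ p = (r + j * M, M')) → p ∈ push r M M' x st := by
  intro x
  induction x with
  | zero => rintro st (h | ⟨j, hj, -⟩); exacts [h, absurd hj (by omega)]
  | succ x ih =>
    intro st h
    change p ∈ force (r + x * M) fun r' => push r M M' x ((r', M') :: st)
    rw [force_eq]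
    apply ih
    rcases h with h | ⟨j, hj, rfl⟩
    · exact Or.inl (List.mem_cons_of_mem _ h)
    · rcases Nat.lt_succ_iff_lt_or_eq.mp hj with h1 | rfl
      · exact Or.inr ⟨j, h1, rfl⟩
      · exact Or.inl List.mem_cons_self

theorem split_class {e r M m : ℕ} (hm : 0 < m) (he : e ≡ r [MOD M]) :
    ∃ j, j < m ∧ e ≡ r + j * M [MOD M * m] := by
  obtain ⟨t, ht⟩ := (Nat.modEq_iff_dvd.mp he.symm)
  have hm' : (0 : ℤ) < m := by exact_mod_cast hm
  refine ⟨(t % m).toNat, ?_, ?_⟩
  · have := Int.emod_lt_of_pos t hm'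
    have := Int.emod_nonneg t hm'.ne'
    omega
  · refine (Nat.modEq_iff_dvd.mpr ⟨t / m, ?_⟩).symm
    push_cast
    rw [Int.toNat_of_nonneg (Int.emod_nonneg t hm'.ne')]
    have := Int.mul_ediv_add_emod t m
    linear_combination ht - (M : ℤ) * this

section tree

variable {s q D w N e n tab len : ℕ}

theorem leaf_sound (hs : 0 < s) (hq : q.Prime) (hqs : q ∣ s) (hD : D * q ^ w = (s - 1).factorial)
    (hg : TabGood s tab 0 len) (hN : N + w ≤ e) (h0 : H s e n = 0) (hT : q ^ (N + w) ∣ T s e)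
    {a b r M : ℕ} (h : leaf s q D N tab len a b r M = true) : ¬ e ≡ r [MOD M] := by
  intro he
  rcases bool_rec_true h with ⟨-, h⟩ | ⟨-, h⟩
  · rcases bool_rec_true h with ⟨-, h⟩ | ⟨-, h⟩
    · simp only [Bool.and_eq_true, decide_eq_true_eq, beq_iff_eq] at h
      exact rootless_sound hs (isPr_sound h.1.1.1) h.1.1.2 h.2
        ((he.of_dvd (Nat.dvd_of_mod_eq_zero h.1.2)).trans (Nat.mod_modEq _ _).symm) n h0
    · obtain ⟨h1, h2⟩ := bool_rec_and h
      have h3 : b ≤ N := Nat.le_of_ble_eq_true h1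
      exact qtest_sound hq hqs hD he (by omega) h2 ((pow_dvd_pow q (by omega)).trans hT)
  · obtain ⟨h1, h2⟩ := bool_rec_and h
    exact hit_sound hg (Nat.le_of_ble_eq_true h1) he h2 n h0

theorem run_sound (hs : 0 < s) (hq : q.Prime) (hqs : q ∣ s) (hD : D * q ^ w = (s - 1).factorial)
    (hg : TabGood s tab 0 len) (hN : N + w ≤ e) (h0 : H s e n = 0) (hT : q ^ (N + w) ∣ T s e)
    (tg : List (ℕ × ℕ)) : ∀ ws st, run s q D N tab len tg ws st = true → Cov e st → Cov e tg := by
  have key : ∀ k : List (ℕ × ℕ) → Bool, (∀ st, k st = true → Cov e st → Cov e tg) →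
      ∀ x v st, runW s q D N tab len k x v st = true → Cov e st → Cov e tg := by
    intro k hk x
    induction x with
    | zero => intro v st h; exact hk st h
    | succ x ih =>
      intro v st h hc
      change force v (fun w => Bool.rec
        (force (w % 4) fun a => force (w / 4 % 262144) fun b =>
          List.rec false (fun p st _ => Prod.rec (fun r M =>
            Bool.rec
              (Bool.rec false (runW s q D N tab len k x (w / 1048576) st)
                (leaf s q D N tab len a b r M))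
              (Bool.rec (force (M * b) fun M' =>
                runW s q D N tab len k x (w / 1048576) (push r M M' b st)) false (Nat.beq b 0))
              (Nat.beq a 0)) p) st)
        (k st) (Nat.beq w 0)) = true at h
      rw [force_eq] at h
      rcases bool_rec_true h with ⟨-, h⟩ | ⟨-, h⟩
      · rw [force_eq, force_eq] at h
        rcases st with _ | ⟨⟨r, M⟩, st⟩
        · exact absurd h (by simp)
        · obtain ⟨p, hp, he⟩ := hc
          rcases bool_rec_true h with ⟨-, h⟩ | ⟨-, h⟩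
          · obtain ⟨h1, h2⟩ := bool_rec_and h
            rcases List.mem_cons.mp hp with rfl | hp
            · exact absurd he (leaf_sound hs hq hqs hD hg hN h0 hT h1)
            · exact ih _ _ h2 ⟨p, hp, he⟩
          · rcases bool_rec_true h with ⟨h1, h2⟩ | ⟨-, h⟩
            · rw [force_eq] at h2
              refine ih _ _ h2 ?_
              rcases List.mem_cons.mp hp with rfl | hp
              · obtain ⟨j, hj, hj'⟩ :=
                  split_class (Nat.pos_of_ne_zero (Nat.ne_of_beq_eq_false h1)) he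
                exact ⟨_, mem_push _ _ (Or.inr ⟨j, hj, rfl⟩), hj'⟩
              · exact ⟨p, mem_push _ _ (Or.inl hp), he⟩
            · exact absurd h (by simp)
      · exact hk st h hc
  intro ws
  induction ws with
  | nil =>
    intro st h hc
    have h1 : (st == tg) = true := h
    rwa [← eq_of_beq h1]
  | cons v ws ih => intro st h; exact key _ ih 256 v st h

end tree

/-- A root with a large power of `q` covered by `st` is covered by `st'`. -/
def Step (s q w N : ℕ) (st st' : List (ℕ × ℕ)) : Prop :=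
  ∀ e n, q.Prime → q ∣ s → N + w ≤ e → H s e n = 0 → q ^ (N + w) ∣ T s e → Cov e st → Cov e st'

theorem Step.trans {s q w N : ℕ} {a b c : List (ℕ × ℕ)} (h : Step s q w N a b)
    (h' : Step s q w N b c) : Step s q w N a c :=
  fun e n h1 h2 h3 h4 h5 h6 => h' e n h1 h2 h3 h4 h5 (h e n h1 h2 h3 h4 h5 h6)

theorem Step.of_run {s q w N tab len : ℕ} (D : ℕ) (hg : TabGood s tab 0 len) (ws : List ℕ)
    {st tg : List (ℕ × ℕ)} (h : (decide (0 < s) && D * q ^ w == (s - 1).factorial &&
      run s q D N tab len tg ws st) = true) : Step s q w N st tg := by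
  simp only [Bool.and_eq_true, decide_eq_true_eq, beq_iff_eq] at h
  exact fun e n h1 h2 h3 h4 h5 => run_sound h.1.1 h1 h2 h.1.2 hg h3 h4 h5 tg ws st h.2

/-- What has to be checked for a prime divisor `q` of `s`. -/
def PrimeData (s K E q : ℕ) : Prop :=
  ∃ v w N, Step s q w N [(0, 1)] [] ∧ q ^ v ∣ s ∧ q ^ w ∣ (s - 1).factorial ∧
    N + w ≤ E ∧ N + w ≤ K ∧ ((3 ≤ q ^ v ∧ q ^ (N + w) * s * 2 ^ K ≤ 3 ^ K) ∨
      (q = 2 ∧ v = 1 ∧ N = 1 ∧ 4 * s ^ 2 * 3 ^ K ≤ 4 ^ K))

theorem pow_mono {a b A B K e : ℕ} (hab : a ≤ b) (h : A * a ^ K ≤ B * b ^ K) (he : K ≤ e) :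
    A * a ^ e ≤ B * b ^ e := by
  obtain ⟨f, rfl⟩ := Nat.exists_eq_add_of_le he
  rw [pow_add, pow_add, ← mul_assoc, ← mul_assoc]
  exact Nat.mul_le_mul h (Nat.pow_le_pow_left hab f)

theorem no_root {s K E tab len : ℕ} (hs : 4 ≤ s) (hg : TabGood s tab 0 len)
    (hfin : finOK tab len (K - (2 * s - 1)) (2 * s - 1) = true)
    (hq : ∀ q, q.Prime → q ∣ s → PrimeData s K E q)
    (hB : ((s - 1).factorial * s ^ E + 1) * (s - 1) ^ K ≤ s ^ K) (e : ℕ) (he : 2 * s - 1 ≤ e)
    (n : ℕ) : H s e n ≠ 0 := by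
  rcases Nat.lt_or_ge e K with hK | hK
  · exact finOK_sound hg _ _ hfin e he (by omega) n
  intro h0
  have hpos : 0 < (s - 1) ^ e := pow_pos (by omega) e
  have hn0 : 0 < n := Nat.pos_of_ne_zero (by
    rintro rfl
    exact H_ne_zero_small (by omega) (by simpa using pow_pos (show 0 < s by omega) e) h0)
  have hup : n < s * 2 ^ e := by
    by_contra hcon
    exact H_ne_zero_big (by omega) (by omega) (not_lt.mp hcon) h0
  have hsq := sq_dvd (by omega) h0
  have hnz : (n : ℤ) ≠ 0 := by exact_mod_cast hn0.ne'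
  obtain ⟨u, hu⟩ : n ∣ (s - 1).factorial * s ^ e := by
    have h1 : (n : ℤ) ∣ ((s - 1).factorial * s ^ e : ℕ) - n * (T s e : ℤ) :=
      (dvd_pow_self _ two_ne_zero).trans hsq
    exact Int.natCast_dvd_natCast.mp ((dvd_sub_left (dvd_mul_right _ _)).mp h1)
  have huT : (n : ℤ) ∣ u - T s e := by
    rw [hu, Nat.cast_mul, ← mul_sub, pow_two] at hsq
    exact (mul_dvd_mul_iff_left hnz).mp hsq
  have hnE : ∀ q, q.Prime → q ∣ s → ¬ q ^ E ∣ n := by
    intro q hp hqs hd
    obtain ⟨v, w, N, hrun, hv, hD, hE, hNK, hcase⟩ := hq q hp hqs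
    have hd' : q ^ (N + w) ∣ n := (pow_dvd_pow q hE).trans hd
    by_cases hqu : q ^ (N + w) ∣ u
    · have h1 : ((q ^ (N + w) : ℕ) : ℤ) ∣ T s e :=
        (dvd_sub_right (Int.natCast_dvd_natCast.mpr hqu)).mp
          ((Int.natCast_dvd_natCast.mpr hd').trans huT)
      obtain ⟨p, hp', -⟩ := hrun e n hp hqs (by omega) h0 (Int.natCast_dvd_natCast.mp h1)
        ⟨(0, 1), List.mem_singleton_self _, Nat.modEq_one⟩
      simp at hp'
    · have h1 : q ^ (w + v * e) ∣ n * u := by
        rw [← hu, pow_add, pow_mul]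
        exact mul_dvd_mul hD (pow_dvd_pow_of_dvd hv e)
      have hu0 : u ≠ 0 := by rintro rfl; exact hqu (dvd_zero _)
      have h2 : u.factorization q < N + w := by
        by_contra hcon
        exact hqu ((hp.pow_dvd_iff_le_factorization hu0).mpr (not_lt.mp hcon))
      have h3 := (hp.pow_dvd_iff_le_factorization (mul_ne_zero hn0.ne' hu0)).mp h1
      rw [Nat.factorization_mul hn0.ne' hu0, Finsupp.add_apply] at h3
      rcases hcase with ⟨c1, c2⟩ | ⟨rfl, rfl, rfl, c2⟩
      · have h4 : q ^ (n.factorization q) ≤ n := Nat.le_of_dvd hn0 (Nat.ordProj_dvd n q)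
        have h5 : 3 ^ e ≤ q ^ (N + w) * q ^ (n.factorization q) := by
          rw [← pow_add]
          calc 3 ^ e ≤ (q ^ v) ^ e := Nat.pow_le_pow_left c1 e
            _ = q ^ (v * e) := by rw [pow_mul]
            _ ≤ _ := Nat.pow_le_pow_right hp.pos (by omega)
        have h6 := pow_mono (B := 1) (show 2 ≤ 3 by norm_num) (by simpa using c2) hK
        have h7 : q ^ (N + w) * n < q ^ (N + w) * (s * 2 ^ e) :=
          Nat.mul_lt_mul_of_pos_left hup (pow_pos hp.pos _)
        have h8 := Nat.mul_le_mul_left (q ^ (N + w)) h4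
        rw [← mul_assoc] at h7
        omega
      · have h6 := pow_mono (B := 1) (show 3 ≤ 4 by norm_num) (by simpa using c2) hK
        exact H_ne_zero_two hs (by omega) (by simpa using h6) hn0
          ((hp.pow_dvd_iff_le_factorization hn0.ne').mpr (by omega)) h0
  have hdvd : n ∣ (s - 1).factorial * s ^ E := by
    rw [Nat.dvd_iff_prime_pow_dvd_dvd]
    intro p k hp hk
    by_cases hps : p ∣ s
    · have : k ≤ E := by
        by_contra hcon
        exact hnE p hp hps ((pow_dvd_pow p (by omega)).trans hk)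
      exact Dvd.dvd.mul_left ((pow_dvd_pow p this).trans (pow_dvd_pow_of_dvd hps E)) _
    · refine Dvd.dvd.mul_right (Nat.Coprime.dvd_of_dvd_mul_right
        (Nat.Coprime.pow k e ((Nat.Prime.coprime_iff_not_dvd hp).mpr hps)) ?_) _
      rw [hu]
      exact hk.mul_right u
  have hle : n ≤ (s - 1).factorial * s ^ E := Nat.le_of_dvd (by positivity) hdvd
  have h9 := pow_mono (B := 1) (show s - 1 ≤ s by omega) (by simpa using hB) hK
  refine H_ne_zero_small (by omega) ?_ h0
  calc n * (s - 1) ^ e < ((s - 1).factorial * s ^ E + 1) * (s - 1) ^ e :=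
        Nat.mul_lt_mul_of_pos_right (by omega) hpos
    _ ≤ _ := by simpa using h9

/-- The conjecture for one value of `s`. -/
def Claim (s : ℕ) : Prop := ∀ e, 2 * s - 1 ≤ e → ∀ n, H s e n ≠ 0

theorem Claim.moser {s : ℕ} (hs : 0 < s) (h : Claim s) {k : ℕ} {n : ℤ} (h0 : moser s k n = 0) :
    k ≤ 2 * s - 1 := by
  by_contra hk
  rcases le_or_gt n 0 with hn | hn
  · exact moser_ne_zero_of_nonpos hs k (by exact_mod_cast hn) h0
  · obtain ⟨m, rfl⟩ := Int.eq_ofNat_of_zero_le hn.le
    rw [Int.cast_natCast, moser_nat] at h0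
    have := (mul_eq_zero.mp h0).resolve_left (pow_ne_zero _ (by norm_num))
    exact h (k - 1) (by omega) m (by exact_mod_cast this)

end Pool.Agent.Lib.MP_b5d28a_nt
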