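import Pool.Agent.Lib.MP_b5d28a_nt.S30
import Pool.Agent.Lib.MP_b5d28a_nt.S26
import Pool.Agent.Lib.MP_b5d28a_nt.S20
import Pool.Agent.Lib.MP_b5d28a_nt.S16

/-!
The conjecture `k_max(s) = 2s - 1` on integer roots of Moser polynomials holds, for all `k`,
when `4 ≤ s ≤ 30`.
-/

namespace Pool.Agent.Lib.MP_b5d28a_nt.UpToThirty

open Pool.Agent.Lib.MP_b5d28a_nt

theorem result (s k : ℕ) (n : ℤ) (hs : 3 < s) (hs' : s ≤ 30) (_hk : 1 ≤ k)
    (h : moser s k n = 0) (_hn : ¬ (1 ≤ n ∧ n ≤ s)) : k ≤ 2 * s - 1 := by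
  refine Claim.moser (by omega) ?_ h
  interval_cases s
  exacts [claim4, claim5, claim6, claim7, claim8, claim9, claim10, claim11, claim12, claim13, claim14, claim15, claim16, claim17, claim18, claim19, claim20, claim21, claim22, claim23, claim24, claim25, claim26, claim27, claim28, claim29, claim30]

end Pool.Agent.Lib.MP_b5d28a_nt.UpToThirty
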